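import Mathlib
import Pool.Agent.Y920.ETC.Stm

/-!
# The basic part of a quaternionic structure
-/

set_option autoImplicit false

namespace Pool.Agent.Y67.ET

open Pool.Agent.H315R3.ETC Pool.Agent.Y920.ETC

section

variable {S : QData} (h : IsQuat S)

include h

theorem one_left (a : S.G) : S.q 1 a = S.zero := by rw [h.qs2]; exact q_one h a

theorem nn (a : S.G) : S.neg * (S.neg * a) = a := by rw [← mul_assoc, h.exp2, one_mul]

theorem neg_self (a : S.G) : S.q (S.neg * a) a = S.zero := by rw [h.qs2]; exact h.qs1 a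

theorem mem_mul {a u v w : S.G} (hu : S.q a u = S.zero) (hv : S.q a v = S.zero) (e : u * v = w) :
    S.q a w = S.zero := by
  rw [← e]
  exact p_mul h hu hv

/-- common value -/
theorem common {a b u v : S.G} (e : S.q a b = S.q u v) :
    ∃ y, S.q a y = S.q a b ∧ S.q u y = S.q a b := by
  obtain ⟨y, h1, h2⟩ := h.qs4 _ _ _ _ e
  exact ⟨y, h1.symm, by rw [e]; exact h2.symm⟩

theorem hr_neg {a b : S.G} (hx : Hr S (a * b)) : Hr S (S.neg * (S.neg * a * b)) := by
  rwa [mul_assoc, nn h]

theorem neg_ne_one {a : S.G} (h1 : a ≠ S.neg) : S.neg * a ≠ 1 := fun e => h1 (eq_of_mul h _ _ e).symm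

omit h in
theorem neg_ne_neg {a : S.G} (h1 : a ≠ 1) : S.neg * a ≠ S.neg := fun e => h1 (mul_eq_left.1 e)

theorem ab_ne {a b : S.G} (hnx : Hr S (S.neg * (a * b))) (ha1 : a ≠ 1) (hb1 : b ≠ 1) :
    S.q a b ≠ S.zero := by
  intro h1
  have h2 : S.q a (S.neg * (a * b)) = S.zero := mem_mul h (h.qs1 a) h1 (mul_assoc _ _ _)
  rw [h.qs2] at h2
  rcases hnx a h2 with h3 | h3
  · exact ha1 h3
  · rw [nn h] at h3
    exact hb1 (left_eq_mul.1 h3)

theorem cap {a b g : S.G} (hx : Hr S (a * b)) (hnx : Hr S (S.neg * (a * b))) (ha1 : a ≠ 1)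
    (hb1 : b ≠ 1) (h1 : S.q a g = S.zero) (h2 : S.q b g = S.zero) : g = 1 := by
  have h3 : S.q g (a * b) = S.zero := p_mul h (by rw [h.qs2]; exact h1) (by rw [h.qs2]; exact h2)
  rw [h.qs2] at h3
  rcases hx g h3 with h4 | h4
  · exact h4
  · exfalso
    rw [h4] at h1
    refine ab_ne h hnx ha1 hb1 (mem_mul h h1 (h.qs1 a) ?_)
    have e : S.neg * (a * b) * (S.neg * a) = S.neg * S.neg * (a * a) * b := by ac_rfl
    rw [e, h.exp2, h.exp2, one_mul, one_mul]

section pair

variable {a b : S.G} (hx : Hr S (a * b)) (hnx : Hr S (S.neg * (a * b))) (ha1 : a ≠ 1)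
  (han : a ≠ S.neg) (hb1 : b ≠ 1)

include hx hnx ha1 han hb1

theorem nab_ne : S.q (S.neg * a) b ≠ S.zero :=
  ab_ne h (hr_neg h hx) (neg_ne_one h han) hb1

theorem cap' {g : S.G} (h1 : S.q (S.neg * a) g = S.zero) (h2 : S.q b g = S.zero) : g = 1 :=
  cap h (by rwa [mul_assoc]) (hr_neg h hx) (neg_ne_one h han) hb1 h1 h2

theorem stepA {e : S.G} (he : S.q b e = S.zero) (he1 : e ≠ 1) : Hr S (a * e) := by
  have ht := ab_ne h hnx ha1 hb1
  have hba : S.q b a = S.q a b := h.qs2 _ _
  have hbna : S.q b (S.neg * a) ≠ S.zero := by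
    rw [h.qs2]
    exact nab_ne h hx hnx ha1 han hb1
  have hvb : S.q (a * e) b = S.q a b := by
    rw [h.qs2, mul_comm, q_shift h _ he, hba]
  have hxa : S.q (S.neg * (a * b)) a = S.q a b := by
    rw [h.qs2, ← mul_assoc, q_shift h _ (h.qs1 a)]
  have key : ∀ g, S.q (a * e) g = S.zero → S.q a g = S.zero ∨ S.q b (S.neg * (a * g)) = S.zero := by
    intro g hg
    have h1 : S.q (a * e) (g * b) = S.q a b := by rw [q_shift h _ hg]; exact hvb
    have h2 : S.q (g * b) (a * e) = S.q (S.neg * (a * b)) a := by rw [h.qs2, h1, hxa]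
    obtain ⟨y, h3, h4⟩ := common h h2
    rw [h2, hxa] at h3 h4
    have h5 : S.q (S.neg * (a * b)) (y * a) = S.zero := by
      rw [← h.qs3, h4, hxa]
    rcases hnx _ h5 with h6 | h6
    · left
      have hya : y = a := eq_of_mul h _ _ h6
      subst hya
      have h7 : S.q y (g * b) = S.q y b := by rw [h.qs2 y (g * b)]; exact h3
      have h8 := (h.qs3 _ _ _).1 h7
      rwa [mul_cancel h] at h8
    · right
      have hyb : y = b := by
        rw [nn h] at h6
        have := congrArg (· * a) h6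
        simp only [mul_cancel h] at this
        rw [this, mul_comm a b, mul_cancel h]
      subst hyb
      have h7 : S.q y (g * y) = S.q y a := by rw [h.qs2 y (g * y), h3, hba]
      have h8 := (h.qs3 _ _ _).1 h7
      refine mem_mul h h8 (h.qs1 y) ?_
      have e1 : g * y * a * (S.neg * y) = y * y * (S.neg * (a * g)) := by ac_rfl
      rw [e1, h.exp2, one_mul]
  have hB : ∀ g, S.q (a * e) g = S.zero → S.q b g = S.zero → g = 1 := by
    intro g hg hbg
    rcases key g hg with h1 | h1
    · exact cap h hx hnx ha1 hb1 h1 hbg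
    · exfalso
      refine hbna (mem_mul h h1 hbg ?_)
      have e1 : S.neg * (a * g) * g = S.neg * (a * (g * g)) := by ac_rfl
      rw [e1, h.exp2, mul_one]
  have key2 : ∀ g, S.q (a * e) g = S.zero → S.q a g = S.zero ∨ g = S.neg * (a * e) := by
    intro g hg
    rcases key g hg with h1 | h1
    · exact Or.inl h1
    · right
      have h2 : S.q (a * e) (g * (S.neg * (a * e))) = S.zero := p_mul h hg (h.qs1 _)
      have h3 : S.q b (g * (S.neg * (a * e))) = S.zero := mem_mul h h1 he (by ac_rfl)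
      exact eq_of_mul h _ _ (hB _ h2 h3)
  intro g hg
  rcases key2 g hg with h1 | h1
  · by_contra hcon
    push Not at hcon
    have h2 : S.q (a * e) (g * (S.neg * (a * e))) = S.zero := p_mul h hg (h.qs1 _)
    rcases key2 _ h2 with h3 | h3
    · have h4 : S.q a (S.neg * (a * e)) = S.zero := by
        refine mem_mul h h1 h3 ?_
        rw [← mul_assoc, h.exp2, one_mul]
      have h5 : S.q a e = S.zero := by
        refine mem_mul h h4 (h.qs1 a) ?_
        have e1 : S.neg * (a * e) * (S.neg * a) = S.neg * S.neg * (a * a) * e := by ac_rfl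
        rw [e1, h.exp2, h.exp2, one_mul, one_mul]
      exact he1 (cap h hx hnx ha1 hb1 h5 he)
    · exact hcon.1 (mul_eq_right.1 h3)
  · exact Or.inr h1

theorem stepB {d : S.G} (hd : S.q b d = S.zero) (hd1 : d ≠ 1) (hdb : d ≠ S.neg * b) : Hr S a := by
  have hba : S.q b a = S.q a b := h.qs2 _ _
  have hr : S.q a d ≠ S.zero := fun h1 => hd1 (cap h hx hnx ha1 hb1 h1 hd)
  have hbd : S.q b (S.neg * b * d) = S.zero := p_mul h (h.qs1 b) hd
  have hbd1 : S.neg * b * d ≠ 1 := fun e => hdb (eq_of_mul h _ _ e).symm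
  have hxd : Hr S (a * (S.neg * b * d)) := stepA h hx hnx ha1 han hb1 hbd hbd1
  have hxr : S.q (a * b) d = S.q a d := by
    rw [h.qs2, mul_comm, q_shift h _ (by rw [h.qs2]; exact hd), h.qs2]
  have key : ∀ g, S.q a g = S.zero → g = 1 ∨ S.q d (S.neg * (a * g)) = S.zero := by
    intro g hg
    have h1 : S.q a (g * d) = S.q a d := q_shift h _ hg
    have h2 : S.q (g * d) a = S.q (a * b) d := by rw [h.qs2, h1, hxr]
    obtain ⟨y, h3, h4⟩ := common h h2
    rw [h2, hxr] at h3 h4
    have h5 : S.q (a * b) (y * d) = S.zero := by rw [← h.qs3, h4, hxr]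
    rcases hx _ h5 with h6 | h6
    · right
      have hy : y = d := eq_of_mul h _ _ h6
      subst hy
      have h7 : S.q y (g * y) = S.q y a := by rw [h.qs2 y (g * y), h3, h.qs2]
      have h8 := (h.qs3 _ _ _).1 h7
      refine mem_mul h h8 (h.qs1 y) ?_
      have e1 : g * y * a * (S.neg * y) = y * y * (S.neg * (a * g)) := by ac_rfl
      rw [e1, h.exp2, one_mul]
    · -- `y = - a b d`
      left
      have hy : y = a * (S.neg * b * d) := by
        have := congrArg (· * d) h6
        simp only [mul_cancel h] at this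
        rw [this]
        ac_rfl
      rw [← hy] at hxd
      have h7 : S.q y (a * b) = S.q a d := by
        rw [h.qs2]
        exact h4
      have h8 : S.q y (g * d) = S.q y (a * b) := by rw [h7, h.qs2]; exact h3
      have h9 := (h.qs3 _ _ _).1 h8
      rcases hxd _ h9 with h10 | h10
      · exfalso
        have hg' : g = d * (a * b) := by
          rw [mul_assoc] at h10
          exact eq_of_mul h _ _ h10
        apply hbd1
        refine cap h hx hnx ha1 hb1 (mem_mul h hg (h.qs1 a) ?_) hbd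
        rw [hg']
        have e1 : d * (a * b) * (S.neg * a) = a * a * (S.neg * b * d) := by ac_rfl
        rw [e1, h.exp2, one_mul]
      · have e1 : g * d * (a * b) = g * (a * b * d) := by ac_rfl
        have e2 : S.neg * y = a * b * d := by
          rw [hy]
          have : S.neg * (a * (S.neg * b * d)) = S.neg * S.neg * (a * b * d) := by ac_rfl
          rw [this, h.exp2, one_mul]
        rw [e1, e2] at h10
        exact mul_eq_right.1 h10
  intro g hg
  by_contra hcon
  push Not at hcon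
  have h1 := (key g hg).resolve_left hcon.1
  have h2 : S.q a (S.neg * (a * g)) = S.zero := mem_mul h (h.qs1 a) hg (mul_assoc _ _ _)
  have h3 : S.neg * (a * g) ≠ 1 := by
    intro e
    rw [← mul_assoc] at e
    exact hcon.2 (eq_of_mul h _ _ e).symm
  have h4 := (key _ h2).resolve_left h3
  have h5 : S.neg * (a * (S.neg * (a * g))) = g := by
    have e1 : S.neg * (a * (S.neg * (a * g))) = S.neg * S.neg * (a * a) * g := by ac_rfl
    rw [e1, h.exp2, h.exp2, one_mul, one_mul]
  rw [h5] at h4
  have h6 : S.q d (S.neg * a) = S.zero := by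
    refine mem_mul h h1 h4 ?_
    have e1 : S.neg * (a * g) * g = S.neg * (a * (g * g)) := by ac_rfl
    rw [e1, h.exp2, mul_one]
  rw [h.qs2] at h6
  exact hd1 (cap' h hx hnx ha1 han hb1 h6 hd)

theorem lemW (hb : ¬ Hr S b) : Hr S a := by
  unfold Hr at hb
  push Not at hb
  obtain ⟨d, hd, hd1, hdb⟩ := hb
  exact stepB h hx hnx ha1 han hb1 hd hd1 hdb

end pair

theorem bi_neg {a : S.G} (ha : Bi S a) : Bi S (S.neg * a) := by
  obtain ⟨h1, h2, h3, h4⟩ := ha
  exact ⟨neg_ne_one h h2, neg_ne_neg h1, h4, by rwa [nn h]⟩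

theorem bi_neg' {a : S.G} (ha : Bi S (S.neg * a)) : Bi S a := by
  have := bi_neg h ha
  rwa [nn h] at this

end

theorem t_BASIC : S_BASIC := by
  intro S h
  refine ⟨{ carrier := {a | ¬ Bi S a}, one_mem' := fun h1 => h1.1 rfl, mul_mem' := ?_, inv_mem' := ?_ },
    fun a => Iff.rfl⟩
  · intro a b ha hb hab
    have ha' : ¬ Bi S a := ha
    have hb' : ¬ Bi S b := hb
    have ha1 : a ≠ 1 := by
      rintro rfl
      rw [one_mul] at hab
      exact hb' hab
    have hb1 : b ≠ 1 := by
      rintro rfl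
      rw [mul_one] at hab
      exact ha' hab
    have han : a ≠ S.neg := by
      rintro rfl
      exact hb' (bi_neg' h hab)
    have hbn : b ≠ S.neg := by
      rintro rfl
      rw [mul_comm] at hab
      exact ha' (bi_neg' h hab)
    obtain ⟨-, -, hx, hnx⟩ := hab
    apply ha'
    by_cases hb2 : Hr S b
    · have hb3 : ¬ Hr S (S.neg * b) := fun h1 => hb' ⟨hb1, hbn, hb2, h1⟩
      have e1 : a * (S.neg * b) = S.neg * (a * b) := by ac_rfl
      have e2 : S.neg * a * (S.neg * b) = a * b := by
        have : S.neg * a * (S.neg * b) = S.neg * S.neg * (a * b) := by ac_rfl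
        rw [this, h.exp2, one_mul]
      refine ⟨ha1, han, ?_, ?_⟩
      · exact lemW h (b := S.neg * b) (by rw [e1]; exact hnx) (by rw [e1, nn h]; exact hx) ha1 han
          (neg_ne_one h hbn) hb3
      · exact lemW h (b := S.neg * b) (by rw [e2]; exact hx) (by rw [e2]; exact hnx)
          (neg_ne_one h han) (neg_ne_neg ha1) (neg_ne_one h hbn) hb3
    · refine ⟨ha1, han, lemW h hx hnx ha1 han hb1 hb2, ?_⟩
      exact lemW h (by rwa [mul_assoc]) (hr_neg h hx) (neg_ne_one h han) (neg_ne_neg ha1) hb1 hb2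
  · intro a ha
    have e : a⁻¹ = a := by
      rw [inv_eq_iff_mul_eq_one]
      exact h.exp2 a
    rw [e]
    exact ha

end Pool.Agent.Y67.ET
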