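import Mathlib
import Pool.Agent.Y920.ETC.Stm

/-!
# Coarsening a valuation ring by two
-/

set_option autoImplicit false

namespace Pool.Agent.Y67.ET

open Pool.Agent.Y920.ETC

/-- the subring generated by `O` and `1 / 2` -/
def half {F : Type} [Field F] (O : ValuationSubring F) : Subring F where
  carrier := {x | ∃ n : ℕ, (2 : F) ^ n * x ∈ O}
  mul_mem' := by
    rintro a b ⟨n, hn⟩ ⟨m, hm⟩
    refine ⟨n + m, ?_⟩
    have e : (2 : F) ^ (n + m) * (a * b) = 2 ^ n * a * (2 ^ m * b) := by rw [pow_add]; ring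
    rw [e]
    exact O.mul_mem _ _ hn hm
  one_mem' := ⟨0, by rw [pow_zero, one_mul]; exact O.one_mem⟩
  add_mem' := by
    rintro a b ⟨n, hn⟩ ⟨m, hm⟩
    refine ⟨n + m, ?_⟩
    have h2 : (2 : F) ∈ O := by
      have := O.add_mem _ _ O.one_mem O.one_mem
      rwa [one_add_one_eq_two] at this
    have e : (2 : F) ^ (n + m) * (a + b) = 2 ^ m * (2 ^ n * a) + 2 ^ n * (2 ^ m * b) := by
      rw [pow_add]; ring
    rw [e]
    exact O.add_mem _ _ (O.mul_mem _ _ (pow_mem h2 m) hn) (O.mul_mem _ _ (pow_mem h2 n) hm)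
  zero_mem' := ⟨0, by rw [mul_zero]; exact O.zero_mem⟩
  neg_mem' := by
    rintro a ⟨n, hn⟩
    refine ⟨n, ?_⟩
    rw [mul_neg]
    exact O.neg_mem _ hn

theorem t_COARSE : S_COARSE := by
  intro F _ h2 T H hT hTH O hC
  by_cases hO : (2 : F)⁻¹ ∈ O
  · exact ⟨O, le_rfl, hO, hC⟩
  have h2O : (2 : F) ∈ O := by
    have := O.add_mem _ _ O.one_mem O.one_mem
    rwa [one_add_one_eq_two] at this
  have hle : O.toSubring ≤ half O := by
    intro x hx
    exact ⟨0, by rw [pow_zero, one_mul]; exact hx⟩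
  -- the claim
  have claim : ∀ w : Fˣ, (w : F) ∈ O → (w : F)⁻¹ ∉ O → (2 : F) / w ∈ O → w ∈ T := by
    intro w h3 h4 h5
    obtain ⟨s, hs, hs1⟩ := hC.one _ h3 h4
    obtain ⟨c, hc⟩ := (hT s).1 hs
    have h6 : (c : F) ^ 2 = 1 + w := by rw [← hs1, hc, Units.val_mul, sq]
    set z : F := c - 1 with hz
    have hwz : (w : F) = z ^ 2 + 2 * z := by
      rw [hz]
      linear_combination -h6
    have hz0 : z ≠ 0 := by
      intro h0
      rw [h0] at hwz
      exact w.ne_zero (by rw [hwz]; ring)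
    have hz2 : z / 2 ∉ O := by
      intro h7
      apply hO
      have h8 : (w : F) / 4 ∈ O := by
        have e : (w : F) / 4 = z / 2 * (z / 2 + 1) := by
          have h22 : (4 : F) = 2 * 2 := by norm_num
          rw [hwz, h22]
          field_simp
        rw [e]
        exact O.mul_mem _ _ h7 (O.add_mem _ _ h7 O.one_mem)
      have e : (2 : F)⁻¹ = w / 4 * (2 / w) := by
        have h4' : (4 : F) ≠ 0 := by
          have : (4 : F) = 2 * 2 := by norm_num
          rw [this]
          exact mul_ne_zero h2 h2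
        have hw := w.ne_zero
        field_simp
        norm_num
      rw [e]
      exact O.mul_mem _ _ h8 h5
    have h7 : (z / 2)⁻¹ ∈ O := (O.mem_or_inv_mem (z / 2)).resolve_left hz2
    obtain ⟨s', hs', hs1'⟩ := hC.one _ h7 (by rwa [inv_inv])
    obtain ⟨c', hc'⟩ := (hT s').1 hs'
    rw [hT]
    refine ⟨Units.mk0 z hz0 * c', Units.ext ?_⟩
    have h8 : (c' : F) ^ 2 = 1 + (z / 2)⁻¹ := by rw [← hs1', hc', Units.val_mul, sq]
    rw [Units.val_mul, Units.val_mul, Units.val_mk0]
    have h9 : z * (c' : F) * (z * c') = z ^ 2 * (c' : F) ^ 2 := by ring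
    rw [h9, h8, hwz]
    field_simp
  have h2H : Units.mk0 (2 : F) h2 ∈ H := by
    apply hTH
    apply claim
    · exact h2O
    · exact hO
    · rw [Units.val_mk0, div_self h2]
      exact O.one_mem
  have main : ∀ n : ℕ, ∀ u : Fˣ, (u : F) ∈ O → (2 : F) ^ n * (u : F)⁻¹ ∈ O → u ∈ H := by
    intro n
    induction n with
    | zero =>
      intro u hu hu'
      rw [pow_zero, one_mul] at hu'
      exact hC.units u hu (by rw [Units.val_inv_eq_inv_val]; exact hu')
    | succ n ih =>
      intro u hu hu'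
      by_cases hu2 : (u : F) / 2 ∈ O
      · have h3 := ih (u * (Units.mk0 (2 : F) h2)⁻¹) (by
          rw [Units.val_mul, Units.val_inv_eq_inv_val, Units.val_mk0, ← div_eq_mul_inv]
          exact hu2) (by
          rw [Units.val_mul, Units.val_inv_eq_inv_val, Units.val_mk0]
          have hu0 := u.ne_zero
          have e : (2 : F) ^ n * ((u : F) * 2⁻¹)⁻¹ = 2 ^ (n + 1) * (u : F)⁻¹ := by
            rw [pow_succ]
            field_simp
          rw [e]
          exact hu')
        have h4 := H.mul_mem h3 h2H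
        rwa [inv_mul_cancel_right] at h4
      · have h3 : ((u : F) / 2)⁻¹ ∈ O := (O.mem_or_inv_mem _).resolve_left hu2
        rw [inv_div] at h3
        by_cases hu3 : (u : F)⁻¹ ∈ O
        · exact hC.units u hu (by rw [Units.val_inv_eq_inv_val]; exact hu3)
        · exact hTH (claim u hu hu3 h3)
  refine ⟨ValuationSubring.ofLE O (half O) hle, fun x hx => hle hx, ⟨1, ?_⟩, ⟨?_, ?_⟩⟩
  · rw [pow_one, mul_inv_cancel₀ h2]
    exact O.one_mem
  · intro u hu hu'
    obtain ⟨n, hn⟩ : ∃ n : ℕ, (2 : F) ^ n * (u : F) ∈ O := hu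
    obtain ⟨m, hm⟩ : ∃ m : ℕ, (2 : F) ^ m * ((u⁻¹ : Fˣ) : F) ∈ O := hu'
    rcases O.mem_or_inv_mem (u : F) with h3 | h3
    · exact main m u h3 (by rw [← Units.val_inv_eq_inv_val]; exact hm)
    · have h4 := main n u⁻¹ (by rw [Units.val_inv_eq_inv_val]; exact h3) (by
        rw [Units.val_inv_eq_inv_val, inv_inv]
        exact hn)
      have := H.inv_mem h4
      rwa [inv_inv] at this
  · intro x hx hx'
    have h3 : x⁻¹ ∉ O := fun h4 => hx' (hle h4)
    exact hC.one x ((O.mem_or_inv_mem x).resolve_right h3) h3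

end Pool.Agent.Y67.ET
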